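import Pool.Agent.Y34.EL.Stm

/-!
# Project EL: the projection of a segment to a sphere
-/

set_option autoImplicit false

universe u

open Metric Set Filter Topology
open Pool.Agent.TH60.FP Pool.Agent.Y34.HB Pool.Agent.Y34.EL

namespace Pool.Agent.Y15.EL

lemma chain_snoc {X : Type u} [MetricSpace X] {o : X} {r : ℝ} {a b c : X} {N : ℝ}
    (h : Chain o r a b N) (hc : dist o c = r) (hbc : dist b c ≤ 1) : Chain o r a c (N + 1) := by
  obtain ⟨n, y, hn, h0, h1, h2, h3⟩ := h
  refine ⟨n + 1, fun i => if i ≤ n then y i else c, by push_cast; linarith, by simp [h0],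
    by simp, ?_, ?_⟩
  · intro i hi
    by_cases hin : i ≤ n
    · simp [hin, h2 i hin]
    · simp [hin, hc]
  · intro i hi
    by_cases hin : i < n
    · have h4 : i ≤ n := hin.le
      have h5 : i + 1 ≤ n := hin
      simp only [h4, h5, if_true]
      exact h3 i hin
    · have h6 : i = n := by omega
      subst h6
      simp only [le_refl, if_true]
      rw [if_neg (by omega), h1]
      exact hbc

lemma chain_mono {X : Type u} [MetricSpace X] {o : X} {r : ℝ} {a b : X} {N N' : ℝ}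
    (h : Chain o r a b N) (hN : N ≤ N') : Chain o r a b N' := by
  obtain ⟨n, y, hn, h0, h1, h2, h3⟩ := h
  exact ⟨n, y, hn.trans hN, h0, h1, h2, h3⟩

/-! ### the triangle -/

/-- the coordinate of the first vertex -/
noncomputable def al (r r' h : ℝ) : ℝ := (r' ^ 2 - r ^ 2 - h ^ 2) / (2 * h)

/-- the coordinate of the second vertex -/
noncomputable def be (r r' h : ℝ) : ℝ := (r' ^ 2 - r ^ 2 + h ^ 2) / (2 * h)

section tri

variable {r r' h : ℝ}

lemma be_eq (hh : 0 < h) : be r r' h = al r r' h + h := by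
  unfold be al
  field_simp
  ring

lemma al_mul (hh : 0 < h) : al r r' h * (2 * h) = r' ^ 2 - r ^ 2 - h ^ 2 := by
  unfold al
  field_simp

lemma al_sq (hr : 0 < r) (hr' : 0 < r') (hh : 0 < h) (h1 : r' ≤ r + h) (h2 : r ≤ r' + h)
    (h3 : h ≤ r + r') : al r r' h ^ 2 ≤ r ^ 2 := by
  have h4 : 0 ≤ (r + h - r') * (r + h + r') := by
    apply mul_nonneg <;> linarith
  have h5 : 0 ≤ (r' - r + h) * (r' + r - h) := by
    apply mul_nonneg <;> linarith
  have h6 : (r ^ 2 - al r r' h ^ 2) * (4 * h ^ 2) =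
      ((r + h - r') * (r + h + r')) * ((r' - r + h) * (r' + r - h)) := by
    have := al_mul (r := r) (r' := r') hh
    have h7 : al r r' h ^ 2 * (4 * h ^ 2) = (r' ^ 2 - r ^ 2 - h ^ 2) ^ 2 := by
      rw [← this]
      ring
    rw [sub_mul, h7]
    ring
  have h8 := mul_nonneg h4 h5
  rw [← h6] at h8
  have h9 : 0 < 4 * h ^ 2 := by positivity
  have := nonneg_of_mul_nonneg_left h8 h9
  linarith

lemma be_sq (hh : 0 < h) : r' ^ 2 - be r r' h ^ 2 = r ^ 2 - al r r' h ^ 2 := by
  rw [be_eq hh]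
  have := al_mul (r := r) (r' := r') hh
  nlinarith

lemma cos_tri (hr : 0 < r) (hr' : 0 < r') (hh : 0 < h) (h1 : r' ≤ r + h) (h2 : r ≤ r' + h)
    (h3 : h ≤ r + r') :
    Real.cos (Real.arcsin (be r r' h / r') - Real.arcsin (al r r' h / r)) * (2 * r * r') =
      r ^ 2 + r' ^ 2 - h ^ 2 := by
  have h4 := al_sq hr hr' hh h1 h2 h3
  have h5 := be_sq (r := r) (r' := r') hh
  have h6 : be r r' h ^ 2 ≤ r' ^ 2 := by linarith
  have h7 : |al r r' h| ≤ r := abs_le_of_sq_le_sq h4 hr.le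
  have h8 : |be r r' h| ≤ r' := abs_le_of_sq_le_sq h6 hr'.le
  have e1 : Real.sin (Real.arcsin (be r r' h / r')) = be r r' h / r' := by
    apply Real.sin_arcsin
    · rw [le_div_iff₀ hr']
      linarith [(abs_le.mp h8).1]
    · rw [div_le_one hr']
      exact (abs_le.mp h8).2
  have e2 : Real.sin (Real.arcsin (al r r' h / r)) = al r r' h / r := by
    apply Real.sin_arcsin
    · rw [le_div_iff₀ hr]
      linarith [(abs_le.mp h7).1]
    · rw [div_le_one hr]
      exact (abs_le.mp h7).2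
  have e3 : Real.cos (Real.arcsin (be r r' h / r')) = √(r ^ 2 - al r r' h ^ 2) / r' := by
    rw [Real.cos_arcsin]
    have : 1 - (be r r' h / r') ^ 2 = (r ^ 2 - al r r' h ^ 2) / r' ^ 2 := by
      rw [← h5]
      field_simp
    rw [this, Real.sqrt_div (by linarith), Real.sqrt_sq hr'.le]
  have e4 : Real.cos (Real.arcsin (al r r' h / r)) = √(r ^ 2 - al r r' h ^ 2) / r := by
    rw [Real.cos_arcsin]
    have : 1 - (al r r' h / r) ^ 2 = (r ^ 2 - al r r' h ^ 2) / r ^ 2 := by
      field_simp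
    rw [this, Real.sqrt_div (by linarith), Real.sqrt_sq hr.le]
  rw [Real.cos_sub, e1, e2, e3, e4]
  have e5 : √(r ^ 2 - al r r' h ^ 2) * √(r ^ 2 - al r r' h ^ 2) = r ^ 2 - al r r' h ^ 2 :=
    Real.mul_self_sqrt (by linarith)
  have e6 : (√(r ^ 2 - al r r' h ^ 2) / r' * (√(r ^ 2 - al r r' h ^ 2) / r) +
      be r r' h / r' * (al r r' h / r)) * (2 * r * r') =
      2 * (√(r ^ 2 - al r r' h ^ 2) * √(r ^ 2 - al r r' h ^ 2)) + 2 * be r r' h * al r r' h := by
    field_simp
  rw [e6, e5, be_eq hh]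
  have := al_mul (r := r) (r' := r') hh
  nlinarith

lemma ratio_le (hr : 0 < r) (hr' : 0 < r') (hh : 0 < h) (h1 : r' ≤ r + h) (h2 : r ≤ r' + h)
    (h3 : h ≤ r + r') : al r r' h / r ≤ be r r' h / r' := by
  rw [div_le_div_iff₀ hr hr']
  have h4 := al_sq hr hr' hh h1 h2 h3
  have h5 := be_sq (r := r) (r' := r') hh
  have h6 := be_eq (r := r) (r' := r') hh
  set α := al r r' h
  set β := be r r' h
  have key : β ^ 2 * r ^ 2 - α ^ 2 * r' ^ 2 = (β ^ 2 - α ^ 2) * (r ^ 2 - α ^ 2) := by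
    have : r' ^ 2 = r ^ 2 - α ^ 2 + β ^ 2 := by linarith
    rw [this]
    ring
  rcases le_total 0 α with hα | hα
  · have hβ : 0 ≤ β := by linarith
    have h7 : (α * r') ^ 2 ≤ (β * r) ^ 2 := by
      have : 0 ≤ (β ^ 2 - α ^ 2) * (r ^ 2 - α ^ 2) := by
        apply mul_nonneg _ (by linarith)
        nlinarith
      nlinarith
    exact abs_le_of_sq_le_sq h7 (by positivity) |> fun h => (abs_le.mp h).2
  · rcases le_total 0 β with hβ | hβ
    · have : α * r' ≤ 0 := mul_nonpos_of_nonpos_of_nonneg hα hr'.le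
      have : 0 ≤ β * r := by positivity
      linarith
    · have h7 : (β * r) ^ 2 ≤ (α * r') ^ 2 := by
        have : (β ^ 2 - α ^ 2) * (r ^ 2 - α ^ 2) ≤ 0 := by
          apply mul_nonpos_of_nonpos_of_nonneg _ (by linarith)
          nlinarith
        nlinarith
      have h8 : (β * r) ^ 2 ≤ (-(α * r')) ^ 2 := by rw [neg_sq]; exact h7
      have h9 := abs_le_of_sq_le_sq h8 (by nlinarith)
      have := (abs_le.mp h9).1
      linarith

lemma step_le {s δ : ℝ} (hr : 0 < r) (hr' : 0 < r') (hh : 0 < h) (h1 : r' ≤ r + h)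
    (h2 : r ≤ r' + h) (h3 : h ≤ r + r') (hs : 0 ≤ s)
    (hd : δ ^ 2 * (r * r') ≤ s ^ 2 * (h ^ 2 - (r - r') ^ 2)) :
    δ ≤ s * (Real.arcsin (be r r' h / r') - Real.arcsin (al r r' h / r)) := by
  have h4 := cos_tri hr hr' hh h1 h2 h3
  have h5 : Real.arcsin (al r r' h / r) ≤ Real.arcsin (be r r' h / r') :=
    Real.monotone_arcsin (ratio_le hr hr' hh h1 h2 h3)
  set θ := Real.arcsin (be r r' h / r') - Real.arcsin (al r r' h / r) with hθ
  have hθ0 : 0 ≤ θ := by linarith
  have h6 := Real.one_sub_sq_div_two_le_cos (x := θ)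
  have hrr : 0 < r * r' := mul_pos hr hr'
  have h7 : h ^ 2 - (r - r') ^ 2 = 2 * (r * r') * (1 - Real.cos θ) := by
    have : Real.cos θ * (2 * (r * r')) = r ^ 2 + r' ^ 2 - h ^ 2 := by
      rw [← h4]; ring
    nlinarith
  have h8 : h ^ 2 - (r - r') ^ 2 ≤ (r * r') * θ ^ 2 := by
    rw [h7]
    nlinarith
  have h9 : δ ^ 2 * (r * r') ≤ (s * θ) ^ 2 * (r * r') := by
    calc δ ^ 2 * (r * r') ≤ s ^ 2 * (h ^ 2 - (r - r') ^ 2) := hd
      _ ≤ s ^ 2 * ((r * r') * θ ^ 2) := mul_le_mul_of_nonneg_left h8 (sq_nonneg s)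
      _ = _ := by ring
  have h10 : δ ^ 2 ≤ (s * θ) ^ 2 := le_of_mul_le_mul_right h9 hrr
  exact (abs_le.mp (abs_le_of_sq_le_sq h10 (by positivity))).2

end tri

/-- EL-PROJ -/
theorem t_PROJ (h1 : S_STEW.{u}) (h2 : S_CMP.{u}) : S_PROJ.{u} := by
  intro X _ _ hCN o p q s a b hs hout ha hb
  obtain ⟨hex, huniq, hstew⟩ := h1 X hCN
  obtain ⟨hcmp, -⟩ := h2 X hCN
  rcases hs.eq_or_lt with hs0 | hs0
  · have e1 : o = a := eq_of_dist_eq_zero (by rw [ha.1, ← hs0])
    have e2 : o = b := eq_of_dist_eq_zero (by rw [hb.1, ← hs0])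
    exact ⟨0, fun _ => a, by rw [← hs0]; norm_num, rfl, by rw [← e1, ← e2],
      fun i _ => ha.1, fun i hi => absurd hi (Nat.not_lt_zero _)⟩
  rcases (dist_nonneg (x := p) (y := q)).eq_or_lt with hD | hD
  · have e : p = q := eq_of_dist_eq_zero hD.symm
    have e2 : a = b := huniq o p s a b ha (by rw [e]; exact hb)
    exact ⟨0, fun _ => a, by push_cast; positivity, rfl, e2,
      fun i _ => ha.1, fun i hi => absurd hi (Nat.not_lt_zero _)⟩
  set D := dist p q with hDdef
  -- distances along a segment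
  have on_dist : ∀ (t t' : ℝ) (x x' : X), 0 ≤ t → t ≤ t' → On p q t x → On p q t' x' →
      dist x x' = t' - t := by
    intro t t' x x' ht htt hx hx'
    obtain ⟨z, hz1, hz2⟩ := hex p x' t ht (by rw [hx'.1]; exact htt)
    have hz3 : On p q t z := by
      refine ⟨hz1, le_antisymm ?_ ?_⟩
      · calc dist z q ≤ dist z x' + dist x' q := dist_triangle _ _ _
          _ = dist p q - t := by rw [hz2, hx'.1, hx'.2]; ring
      · have := dist_triangle p z q
        rw [hz1] at this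
        linarith
    rw [huniq p q t x z hx hz3, hz2, hx'.1]
  set n := ⌈2 * D⌉₊ with hn
  have hn1 : 2 * D ≤ n := Nat.le_ceil _
  have hn0 : 0 < (n : ℝ) := by linarith
  have hnn : 0 < n := by exact_mod_cast hn0
  set h := D / n with hh
  have hh0 : 0 < h := div_pos hD hn0
  have hh1 : h ≤ 1 / 2 := by
    rw [hh, div_le_iff₀ hn0]
    linarith
  have hnh : (n : ℝ) * h = D := by
    rw [hh]
    field_simp
  have hpt : ∀ i : ℕ, ∃ x, i ≤ n → On p q (i * h) x := by
    intro i
    by_cases hi : i ≤ n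
    · have hi' : (i : ℝ) ≤ n := by exact_mod_cast hi
      obtain ⟨x, hx⟩ := hex p q (i * h) (by positivity) (by
        rw [← hDdef, ← hnh]
        exact mul_le_mul_of_nonneg_right hi' hh0.le)
      exact ⟨x, fun _ => hx⟩
    · exact ⟨p, fun h => absurd h hi⟩
  choose pt hpt using hpt
  have hrs : ∀ i, i ≤ n → s ≤ dist o (pt i) := by
    intro i hi
    apply hout
    rw [(hpt i hi).1, (hpt i hi).2]
    ring
  have hy : ∀ i : ℕ, ∃ x, i ≤ n → On o (pt i) s x := by
    intro i
    by_cases hi : i ≤ n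
    · obtain ⟨x, hx⟩ := hex o (pt i) s hs (hrs i hi)
      exact ⟨x, fun _ => hx⟩
    · exact ⟨p, fun h => absurd h hi⟩
  choose y hy using hy
  have hdp : ∀ i, i + 1 ≤ n → dist (pt i) (pt (i + 1)) = h := by
    intro i hi
    rw [on_dist (i * h) ((i + 1 : ℕ) * h) _ _ (by positivity) (by push_cast; nlinarith)
      (hpt i (by omega)) (hpt (i + 1) hi)]
    push_cast
    ring
  have hdp2 : ∀ i, i + 2 ≤ n → dist (pt i) (pt (i + 2)) = 2 * h := by
    intro i hi
    rw [on_dist (i * h) ((i + 2 : ℕ) * h) _ _ (by positivity) (by push_cast; nlinarith)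
      (hpt i (by omega)) (hpt (i + 2) hi)]
    push_cast
    ring
  set r : ℕ → ℝ := fun i => dist o (pt i) with hr
  have hr0 : ∀ i, i ≤ n → 0 < r i := fun i hi => lt_of_lt_of_le hs0 (hrs i hi)
  have ht1 : ∀ i, i + 1 ≤ n → r (i + 1) ≤ r i + h := by
    intro i hi
    have := dist_triangle o (pt i) (pt (i + 1))
    rw [hdp i hi] at this
    exact this
  have ht2 : ∀ i, i + 1 ≤ n → r i ≤ r (i + 1) + h := by
    intro i hi
    have := dist_triangle o (pt (i + 1)) (pt i)
    rw [dist_comm (pt (i + 1)) (pt i), hdp i hi] at this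
    exact this
  have ht3 : ∀ i, i + 1 ≤ n → h ≤ r i + r (i + 1) := by
    intro i hi
    have := dist_triangle (pt i) o (pt (i + 1))
    rw [hdp i hi, dist_comm (pt i) o] at this
    exact this
  have hd : ∀ i, i + 1 ≤ n → dist (y i) (y (i + 1)) ^ 2 * (r i * r (i + 1)) ≤
      s ^ 2 * (h ^ 2 - (r i - r (i + 1)) ^ 2) := by
    intro i hi
    have := hcmp o (pt i) (pt (i + 1)) s (y i) (y (i + 1)) (hy i (by omega)) (hy (i + 1) hi)
    rw [hdp i hi] at this
    exact this
  -- steps are at most h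
  have hst : ∀ i, i + 1 ≤ n → dist (y i) (y (i + 1)) ≤ 1 / 2 := by
    intro i hi
    have e1 := hd i hi
    have e2 := hrs i (by omega)
    have e3 := hrs (i + 1) hi
    have e4 : s ^ 2 ≤ r i * r (i + 1) := by
      rw [sq]
      exact mul_le_mul e2 e3 hs (hs.trans e2)
    have e5 : 0 < r i * r (i + 1) := mul_pos (hr0 i (by omega)) (hr0 (i + 1) hi)
    have e6 : dist (y i) (y (i + 1)) ^ 2 * (r i * r (i + 1)) ≤ h ^ 2 * (r i * r (i + 1)) := by
      calc _ ≤ s ^ 2 * (h ^ 2 - (r i - r (i + 1)) ^ 2) := e1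
        _ ≤ s ^ 2 * h ^ 2 := by
          apply mul_le_mul_of_nonneg_left _ (sq_nonneg s)
          linarith [sq_nonneg (r i - r (i + 1))]
        _ ≤ (r i * r (i + 1)) * h ^ 2 := mul_le_mul_of_nonneg_right e4 (sq_nonneg h)
        _ = _ := by ring
    have e7 := le_of_mul_le_mul_right e6 e5
    have e8 := (abs_le.mp (abs_le_of_sq_le_sq e7 hh0.le)).2
    linarith
  set T : ℕ → ℝ := fun i => Real.arcsin (be (r i) (r (i + 1)) h / r (i + 1)) with hT
  set S : ℕ → ℝ := fun i => Real.arcsin (al (r i) (r (i + 1)) h / r i) with hS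
  have hlen : ∀ i, i + 1 ≤ n → dist (y i) (y (i + 1)) ≤ s * (T i - S i) := fun i hi =>
    step_le (hr0 i (by omega)) (hr0 (i + 1) hi) hh0 (ht1 i hi) (ht2 i hi) (ht3 i hi) hs (hd i hi)
  have hTS : ∀ i, i + 2 ≤ n → T i ≤ S (i + 1) := by
    intro i hi
    apply Real.monotone_arcsin
    apply div_le_div_of_nonneg_right _ (hr0 (i + 1) (by omega)).le
    unfold al be
    apply div_le_div_of_nonneg_right _ (by positivity)
    have e1 : On (pt i) (pt (i + 2)) h (pt (i + 1)) := by
      refine ⟨hdp i (by omega), ?_⟩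
      rw [hdp2 i hi, hdp (i + 1) (by omega)]
      ring
    have e2 := hstew (pt i) (pt (i + 2)) h (pt (i + 1)) e1 o
    rw [hdp2 i hi] at e2
    change 2 * h * r (i + 1) ^ 2 ≤ (2 * h - h) * r i ^ 2 + h * r (i + 2) ^ 2 -
      h * (2 * h - h) * (2 * h) at e2
    have e3 : h * (2 * r (i + 1) ^ 2 + 2 * h ^ 2) ≤ h * (r i ^ 2 + r (i + 2) ^ 2) := by
      nlinarith
    have e4 := le_of_mul_le_mul_left e3 hh0
    have e5 : i + 1 + 1 = i + 2 := rfl
    rw [e5]
    linarith
  set f : ℕ → ℝ := fun m => ∑ j ∈ Finset.range m, dist (y j) (y (j + 1)) with hf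
  have hf1 : ∀ m, f (m + 1) = f m + dist (y m) (y (m + 1)) := fun m => Finset.sum_range_succ _ _
  have hf0 : f 0 = 0 := by simp [hf]
  have hsum : ∀ m, m + 1 ≤ n → f (m + 1) ≤ s * (T m - S 0) := by
    intro m
    induction m with
    | zero =>
      intro hm
      rw [hf1, hf0, zero_add]
      exact hlen 0 hm
    | succ m ih =>
      intro hm
      rw [hf1]
      have e1 := ih (by omega)
      have e2 := hlen (m + 1) hm
      have e3 := hTS m (by omega)
      have e4 := mul_le_mul_of_nonneg_left e3 hs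
      nlinarith
  have hfn : f n ≤ Real.pi * s := by
    obtain ⟨m, hm⟩ : ∃ m, n = m + 1 := ⟨n - 1, by omega⟩
    have e1 := hsum m (by omega)
    rw [← hm] at e1
    have e2 : T m ≤ Real.pi / 2 := Real.arcsin_le_pi_div_two _
    have e3 : -(Real.pi / 2) ≤ S 0 := Real.neg_pi_div_two_le_arcsin _
    have e4 : s * (T m - S 0) ≤ s * Real.pi := mul_le_mul_of_nonneg_left (by linarith) hs
    linarith
  -- the end points
  have hy0 : y 0 = a := by
    have e1 : p = pt 0 := by
      apply eq_of_dist_eq_zero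
      have := (hpt 0 (Nat.zero_le _)).1
      simpa using this
    exact huniq o (pt 0) s _ _ (hy 0 (Nat.zero_le _)) (by rw [← e1]; exact ha)
  have hyn : y n = b := by
    have e1 : pt n = q := by
      apply eq_of_dist_eq_zero
      have := (hpt n le_rfl).2
      rw [hnh] at this
      rw [this, ← hDdef]
      ring
    exact huniq o (pt n) s _ _ (hy n le_rfl) (by rw [e1]; exact hb)
  have hsph : ∀ i, i ≤ n → dist o (y i) = s := fun i hi => (hy i hi).1
  -- thinning
  have thin : ∀ m, m ≤ n → ∃ (N l : ℝ) (c : X), Chain o s a c N ∧ dist o c = s ∧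
      dist c (y m) ≤ l ∧ l ≤ 1 / 2 ∧ N / 2 + l ≤ f m := by
    intro m
    induction m with
    | zero =>
      intro _
      refine ⟨0, 0, a, ⟨0, fun _ => a, by simp, rfl, rfl, fun i _ => ha.1,
        fun i hi => absurd hi (Nat.not_lt_zero _)⟩, ha.1, by rw [hy0, dist_self], by norm_num,
        by rw [hf0]; norm_num⟩
    | succ m ih =>
      intro hm
      obtain ⟨N, l, c, hc1, hc2, hc3, hc4, hc5⟩ := ih (by omega)
      have e1 : dist c (y (m + 1)) ≤ l + dist (y m) (y (m + 1)) :=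
        (dist_triangle _ (y m) _).trans (by linarith)
      have e2 := hst m hm
      by_cases hl : l + dist (y m) (y (m + 1)) ≤ 1 / 2
      · refine ⟨N, l + dist (y m) (y (m + 1)), c, hc1, hc2, e1, hl, ?_⟩
        rw [hf1]
        linarith
      · push Not at hl
        refine ⟨N + 1, 0, y (m + 1), chain_snoc hc1 (hsph _ hm) (by linarith), hsph _ hm,
          by rw [dist_self], by norm_num, ?_⟩
        rw [hf1]
        linarith
  obtain ⟨N, l, c, hc1, hc2, hc3, hc4, hc5⟩ := thin n le_rfl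
  rw [hyn] at hc3
  have hl0 : 0 ≤ l := dist_nonneg.trans hc3
  refine chain_mono (chain_snoc hc1 hb.1 (by linarith)) ?_
  have := Real.pi_lt_d2
  nlinarith

end Pool.Agent.Y15.EL
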